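import Pool.Agent.helper72.ODK.Spec

/-! Row FIW of project ODK (MP_7e34bc_co). -/

set_option autoImplicit false

namespace Pool.Agent.helper72.UP

open Finset

theorem FIW_core (h2 : TOW_stmt) (h3 : TAW_stmt) (h4 : BIW_stmt) (h5 : HAW_stmt) (h6 : CEW_stmt)
    (h7 : SUW_stmt) (a b K : ℕ) (hab : a ≤ b) (hba : b ≤ a + 1) (ha : 9 ≤ a) (hbK : b ≤ 2 * K + 1)
    (hKb : K ≤ b) (haK : a ≤ 2 * K) (hy : 4 * (K + 1 - b / 2) ≤ b / 2 + 1)
    (hy' : 4 * (K - 1 + 2 * (Nat.sqrt b + 1) - a / 2) ≤ a / 2 + 1)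
    (hE : 12 * Real.sqrt (a : ℝ) < ((a : ℝ) + 2) *
      Real.exp (-(2 * ((K + 1 - b / 2 : ℕ) : ℝ) ^ 2 / ((b / 2 : ℕ) + 1)) -
        2 * ((K - 1 + 2 * (Nat.sqrt b + 1) - a / 2 : ℕ) : ℝ) ^ 2 / ((a / 2 : ℕ) + 1))) :
    ∑ i ∈ range K, (a.choose i : ℝ) * ((b.choose (i + 1) : ℝ) - b.choose (i + 2)) < 0 := by
  obtain ⟨L, hL⟩ : ∃ L, L = K - 1 + 2 * (Nat.sqrt b + 1) := ⟨_, rfl⟩
  rw [← hL] at hy' hE
  have hLb : L < b := by omega
  have hKL : K ≤ L := by omega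
  have t1 := h2 a b hab (by omega)
  have t2 := h3 a b K L haK hbK hKL hLb
  have t3 := h5 b (K + 1) (by omega) (by omega)
  have e1 : K + 1 + 2 * (Nat.sqrt b + 1) = L + 2 := by omega
  rw [e1] at t3
  have t4 := h4 b (K + 1 - b / 2) hy
  have e2 : b / 2 + (K + 1 - b / 2) = K + 1 := by omega
  rw [e2] at t4
  have t5 := h4 a (L - a / 2) hy'
  have e3 : a / 2 + (L - a / 2) = L := by omega
  rw [e3] at t5
  have t6 := h6 a (by omega)
  have t7 : ((a + b).choose (b - 1) : ℝ) ≤ 2 ^ a * b.choose (b / 2) := by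
    exact_mod_cast h7 a b (by omega)
  have hsum := Finset.sum_range_add_sum_Ico
    (fun i => (a.choose i : ℝ) * ((b.choose (i + 1) : ℝ) - b.choose (i + 2))) hKb
  rw [sub_eq_add_neg, Real.exp_add] at hE
  have hP1 : (0 : ℝ) < a.choose (a / 2) := by
    exact_mod_cast Nat.choose_pos (Nat.div_le_self a 2)
  have hP2 : (0 : ℝ) < b.choose (b / 2) := by
    exact_mod_cast Nat.choose_pos (Nat.div_le_self b 2)
  have hE1 := Real.exp_pos (-(2 * ((K + 1 - b / 2 : ℕ) : ℝ) ^ 2 / ((b / 2 : ℕ) + 1)))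
  have hE2 := Real.exp_pos (-(2 * ((L - a / 2 : ℕ) : ℝ) ^ 2 / ((a / 2 : ℕ) + 1)))
  have ha2 : (0 : ℝ) < (a : ℝ) + 2 := by positivity
  generalize hE1d : Real.exp (-(2 * ((K + 1 - b / 2 : ℕ) : ℝ) ^ 2 / ((b / 2 : ℕ) + 1))) = E1 at *
  generalize hE2d : Real.exp (-(2 * ((L - a / 2 : ℕ) : ℝ) ^ 2 / ((a / 2 : ℕ) + 1))) = E2 at *
  generalize (a.choose (a / 2) : ℝ) = P1 at *
  generalize (b.choose (b / 2) : ℝ) = P2 at *
  generalize Real.sqrt (a : ℝ) = s at *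
  have hX0 : (0 : ℝ) ≤ b.choose (K + 1) := by positivity
  have hY0 : (0 : ℝ) ≤ a.choose L := by positivity
  have u1 : P1 * E2 * (P2 * E1) ≤ a.choose L * b.choose (K + 1) :=
    mul_le_mul t5 t4 (by positivity) hY0
  have u2 : (a.choose L : ℝ) * ((b.choose (K + 1) : ℝ) / 2) ≤
      a.choose L * ((b.choose (K + 1) : ℝ) - b.choose (L + 2)) :=
    mul_le_mul_of_nonneg_left (by linarith) hY0
  have u3 : (2 : ℝ) ^ a * P2 ≤ 2 * s * P1 * P2 := mul_le_mul_of_nonneg_right t6 hP2.le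
  have u4 : 12 * s * (P1 * P2) < (a + 2) * (E1 * E2) * (P1 * P2) :=
    mul_lt_mul_of_pos_right hE (by positivity)
  have u5 : ((a : ℝ) + 2) * (P1 * E2 * (P2 * E1) / 2) ≤
      ((a : ℝ) + 2) * ∑ i ∈ Ico K b, (a.choose i : ℝ) * ((b.choose (i + 1) : ℝ) - b.choose (i + 2)) :=
    mul_le_mul_of_nonneg_left (by linarith) ha2.le
  have u6 : ((a : ℝ) + 2) * ∑ i ∈ range b, (a.choose i : ℝ) * ((b.choose (i + 1) : ℝ) - b.choose (i + 2)) <
      ((a : ℝ) + 2) * ∑ i ∈ Ico K b, (a.choose i : ℝ) * ((b.choose (i + 1) : ℝ) - b.choose (i + 2)) := by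
    nlinarith
  have u7 := lt_of_mul_lt_mul_left u6 ha2.le
  linarith

theorem FIW (h1 : DIW_stmt) (h2 : TOW_stmt) (h3 : TAW_stmt) (h4 : BIW_stmt) (h5 : HAW_stmt)
    (h6 : CEW_stmt) (h7 : SUW_stmt) : FIW_stmt := by
  intro n K hn hnK hKn hy hy' hE
  have hc := FIW_core h2 h3 h4 h5 h6 h7 ((n - 1) / 2) (n / 2) K (by omega) (by omega) (by omega)
    (by omega) hKn (by omega) hy hy' hE
  have hd := h1 n K (by omega)
  have he : ((WW n K : ℤ) : ℝ) = ((VV n (2 * K + 1) : ℤ) : ℝ) -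
      ∑ i ∈ range K, (((n - 1) / 2).choose i : ℝ) *
        (((n / 2).choose (i + 1) : ℝ) - (n / 2).choose (i + 2)) := by
    rw [hd]
    push_cast
    rw [sub_eq_add_neg, ← Finset.sum_neg_distrib]
    congr 1
    refine Finset.sum_congr rfl fun i _ => ?_
    ring
  have hf : ((VV n (2 * K + 1) : ℤ) : ℝ) < ((WW n K : ℤ) : ℝ) := by linarith
  exact_mod_cast hf

end Pool.Agent.helper72.UP
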